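import Mathlib
import Pool.Agent.H19.Inertia

set_option autoImplicit false
open Matrix

namespace Pool.Agent.Results.MP_0b3830_co.Disproof

/-- Weighted distance: the least total weight of a `u`-`v` path. -/
noncomputable def wdist {N : ℕ} (G : SimpleGraph (Fin N)) (φ : Sym2 (Fin N) → ℝ) (u v : Fin N) :
    ℝ :=
  ⨅ p : G.Path u v, (p.1.edges.map φ).sum

/-- The weighted distance matrix. -/
noncomputable def distMatrix {N : ℕ} (G : SimpleGraph (Fin N)) (φ : Sym2 (Fin N) → ℝ) :
    Matrix (Fin N) (Fin N) ℝ :=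
  Matrix.of fun u v => wdist G φ u v

/-- Number of positive eigenvalues, with multiplicity: positive real roots of the characteristic
polynomial. -/
noncomputable def numPos {N : ℕ} (M : Matrix (Fin N) (Fin N) ℝ) : ℕ :=
  Multiset.card (M.charpoly.roots.filter (fun x => 0 < x))

/-- `H` is a minor of `G`: disjoint connected branch sets, joined by an edge of `G` for every edge
of `H`. -/
def IsMinor {W V : Type} (H : SimpleGraph W) (G : SimpleGraph V) : Prop :=
  ∃ B : W → Set V, (∀ w, (G.induce (B w)).Connected) ∧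
    (∀ a b, a ≠ b → Disjoint (B a) (B b)) ∧
    ∀ a b, H.Adj a b → ∃ x ∈ B a, ∃ y ∈ B b, G.Adj x y

/-- The complete multipartite graph with one part of size 2 and `n` parts of size 3. -/
def K233 (n : ℕ) : SimpleGraph (Σ i : Fin (n + 1), Fin (if i = 0 then 2 else 3)) :=
  SimpleGraph.completeMultipartiteGraph (fun i : Fin (n + 1) => Fin (if i = 0 then 2 else 3))

def dN (u v : Fin 7) : ℕ := if u = v then 0 else if u - v = 1 ∨ v - u = 1 then 2 else 1

theorem dN_symm : ∀ u v, dN u v = dN v u := by decide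

theorem dN_tri : ∀ u v w, dN u w ≤ dN u v + dN v w := by decide

theorem dN_pos : ∀ u v, u ≠ v → 0 < dN u v := by decide

noncomputable def φ0 : Sym2 (Fin 7) → ℝ :=
  Sym2.lift ⟨fun u v => (dN u v : ℝ), fun u v => by simp only [dN_symm u v]⟩

theorem walk_ge {u v : Fin 7} (p : (⊤ : SimpleGraph (Fin 7)).Walk u v) :
    (dN u v : ℝ) ≤ (p.edges.map φ0).sum := by
  induction p with
  | nil => simp [dN]
  | @cons a b c h p ih =>
    simp only [SimpleGraph.Walk.edges_cons, List.map_cons, List.sum_cons]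
    have h1 : (dN a c : ℝ) ≤ dN a b + dN b c := by exact_mod_cast dN_tri a b c
    have h2 : φ0 s(a, b) = dN a b := by simp [φ0]
    linarith

theorem wdist_eq (u v : Fin 7) : wdist ⊤ φ0 u v = dN u v := by
  have hb : BddBelow (Set.range fun p : (⊤ : SimpleGraph (Fin 7)).Path u v =>
      (p.1.edges.map φ0).sum) := ⟨dN u v, by rintro _ ⟨p, rfl⟩; exact walk_ge p.1⟩
  by_cases h : u = v
  · subst h
    haveI : Nonempty ((⊤ : SimpleGraph (Fin 7)).Path u u) := ⟨SimpleGraph.Path.nil⟩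
    apply le_antisymm
    · refine (ciInf_le hb SimpleGraph.Path.nil).trans ?_
      simp
    · exact le_ciInf fun p => walk_ge p.1
  · have ha : (⊤ : SimpleGraph (Fin 7)).Adj u v := h
    haveI : Nonempty ((⊤ : SimpleGraph (Fin 7)).Path u v) := ⟨SimpleGraph.Path.singleton ha⟩
    apply le_antisymm
    · refine (ciInf_le hb (SimpleGraph.Path.singleton ha)).trans ?_
      simp [SimpleGraph.Path.singleton, φ0]
    · exact le_ciInf fun p => walk_ge p.1

def D0 : Matrix (Fin 7) (Fin 7) ℝ :=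
  !![0,2,1,1,1,1,2; 2,0,2,1,1,1,1; 1,2,0,2,1,1,1; 1,1,2,0,2,1,1; 1,1,1,2,0,2,1;
     1,1,1,1,2,0,2; 2,1,1,1,1,2,0]

theorem dist_eq : distMatrix ⊤ φ0 = D0 := by
  ext u v
  simp only [distMatrix, of_apply, wdist_eq]
  fin_cases u <;> fin_cases v <;> simp [D0, dN] <;> decide

def P0 : Matrix (Fin 7) (Fin 3) ℝ :=
  !![1,-2,-1; 1,-1,-2; 1,1,-1; 1,2,0; 1,1,1; 1,0,2; 1,-1,1]

theorem D0_herm : D0.IsHermitian := by
  ext i j
  fin_cases i <;> fin_cases j <;> simp [D0]

theorem three_le : 3 ≤ numPos (distMatrix ⊤ φ0) := by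
  rw [dist_eq]
  apply Pool.Agent.H19.le_card_pos D0 D0_herm 3 P0
  intro c hc
  have h : (P0 *ᵥ c) ⬝ᵥ (D0 *ᵥ (P0 *ᵥ c)) = 56 * c 0 ^ 2 + 2 * c 1 ^ 2 + 2 * c 2 ^ 2 := by
    simp [P0, D0, dotProduct, mulVec, Fin.sum_univ_succ]
    ring
  rw [h]
  by_contra hcon
  push Not at hcon
  apply hc
  have h0 : c 0 = 0 := by nlinarith [sq_nonneg (c 0), sq_nonneg (c 1), sq_nonneg (c 2)]
  have h1 : c 1 = 0 := by nlinarith [sq_nonneg (c 0), sq_nonneg (c 1), sq_nonneg (c 2)]
  have h2 : c 2 = 0 := by nlinarith [sq_nonneg (c 0), sq_nonneg (c 1), sq_nonneg (c 2)]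
  ext i
  fin_cases i <;> simp [h0, h1, h2]

theorem no_minor : ¬ IsMinor (K233 2) (⊤ : SimpleGraph (Fin 7)) := by
  rintro ⟨B, hB, hd, -⟩
  have hne : ∀ w, ∃ x, x ∈ B w := fun w => by
    obtain ⟨⟨x, hx⟩⟩ := (hB w).nonempty
    exact ⟨x, hx⟩
  choose f hf using hne
  have hinj : Function.Injective f := by
    intro a b hab
    by_contra hne
    exact Set.disjoint_left.1 (hd a b hne) (hf a) (hab ▸ hf b)
  have := Fintype.card_le_of_injective f hinj
  revert this
  decide

theorem result :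
    ¬ ∀ n : ℕ, 1 ≤ n → ∀ (N : ℕ) (G : SimpleGraph (Fin N)), G.Connected →
      ((∀ φ : Sym2 (Fin N) → ℝ, (∀ e ∈ G.edgeSet, 0 < φ e) → numPos (distMatrix G φ) ≤ n) ↔
        ¬ IsMinor (K233 n) G) := by
  intro h
  have h1 := (h 2 (by norm_num) 7 ⊤ (SimpleGraph.connected_top)).2 no_minor φ0 (by
    intro e he
    induction e using Sym2.ind with
    | h u v =>
      have : u ≠ v := by simpa using he
      have := dN_pos u v this
      simp only [φ0, Sym2.lift_mk]
      exact_mod_cast this)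
  have := three_le
  omega

end Pool.Agent.Results.MP_0b3830_co.Disproof
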